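import Pool.Agent.Helper59.LUC.Goals

set_option autoImplicit false

open Polynomial

namespace Pool.Agent.Helper59.LUC

namespace PkND

variable {T M : ℤ} {η : ℂ}

lemma eval_ne (h : Ctx T M η) {r : ℕ} (hr : 1 ≤ r) : (cyclotomic r ℂ).eval η ≠ 0 := by
  intro h0
  have h1 : cyclotomic r ℂ ∣ X ^ r - 1 := cyclotomic.dvd_X_pow_sub_one r ℂ
  obtain ⟨q, hq⟩ := h1
  have h2 := congrArg (Polynomial.eval η) hq
  rw [eval_mul, h0, zero_mul] at h2
  simp only [eval_sub, eval_pow, eval_X, eval_one] at h2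
  exact h.hru r hr (sub_eq_zero.mp h2)

lemma NR_pos (h : Ctx T M η) {r : ℕ} (hr : 1 ≤ r) : 0 < NR M η r := by
  unfold NR
  have h1 := eval_ne h hr
  exact mul_pos (pow_pos h.MR _) (by positivity)

lemma prod_NR (h : Ctx T M η) {r : ℕ} (hr : 1 ≤ r) :
    ∏ d ∈ r.divisors, NR M η d = (W T M r : ℝ) := by
  rw [h.W_eq r]
  unfold NR
  rw [Finset.prod_mul_distrib, Finset.prod_pow_eq_pow_sum, Nat.sum_totient, Finset.prod_pow,
    ← norm_prod, ← eval_prod, prod_cyclotomic_eq_X_pow_sub_one hr]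
  simp

lemma int_lam (h : Ctx T M η) : IsIntegral ℤ ((M : ℂ) * η) := by
  refine ⟨X ^ 2 - C T * X + C (M ^ 2), ?_, ?_⟩
  · have e : (X ^ 2 - C T * X + C (M ^ 2) : ℤ[X]) = X ^ 2 + (- C T * X + C (M ^ 2)) := by ring
    rw [e]
    apply Polynomial.monic_X_pow_add
    have : (- C T * X + C (M ^ 2) : ℤ[X]) = C (-T) * X + C (M ^ 2) := by
      simp
    rw [this]
    refine lt_of_le_of_lt Polynomial.degree_linear_le ?_
    norm_num
  · have h1 := h.hη
    simp only [eval₂_add, eval₂_sub, eval₂_pow, eval₂_X, eval₂_mul, eval₂_C]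
    simp only [algebraMap_int_eq, eq_intCast, Int.cast_pow]
    linear_combination (M : ℂ) * h1

lemma int_lam' (h : Ctx T M η) : IsIntegral ℤ ((M : ℂ) * η⁻¹) := by
  refine ⟨X ^ 2 - C T * X + C (M ^ 2), ?_, ?_⟩
  · have e : (X ^ 2 - C T * X + C (M ^ 2) : ℤ[X]) = X ^ 2 + (- C T * X + C (M ^ 2)) := by ring
    rw [e]
    apply Polynomial.monic_X_pow_add
    have : (- C T * X + C (M ^ 2) : ℤ[X]) = C (-T) * X + C (M ^ 2) := by
      simp
    rw [this]
    refine lt_of_le_of_lt Polynomial.degree_linear_le ?_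
    norm_num
  · have h1 := h.hη
    have h0 := h.ne_zero
    simp only [eval₂_add, eval₂_sub, eval₂_pow, eval₂_X, eval₂_mul, eval₂_C]
    simp only [algebraMap_int_eq, eq_intCast, Int.cast_pow]
    have h2 : η * η⁻¹ = 1 := mul_inv_cancel₀ h0
    field_simp
    linear_combination (M : ℂ) * h1

lemma NR_eq (h : Ctx T M η) {r : ℕ} (hr : 1 ≤ r) :
    ((NR M η r : ℝ) : ℂ) = ∏ z ∈ primitiveRoots r ℂ,
      (2 * (M : ℂ) - z⁻¹ * (M * η) - z * (M * η⁻¹)) := by
  have hr0 : r ≠ 0 := by omega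
  have hz := Complex.isPrimitiveRoot_exp r hr0
  unfold NR
  rw [cyclotomic_eq_prod_X_sub_primitiveRoots hz, eval_prod, norm_prod, ← Finset.prod_pow,
    ← Complex.card_primitiveRoots r, ← Finset.prod_const, ← Finset.prod_mul_distrib,
    Complex.ofReal_prod]
  refine Finset.prod_congr rfl fun z hz' => ?_
  have hp : IsPrimitiveRoot z r := (mem_primitiveRoots hr).mp hz'
  have hn : ‖z‖ = 1 := hp.norm'_eq_one hr0
  rw [Complex.ofReal_mul, eval_sub, eval_X, eval_C, h.normSq_sub z hn]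
  push_cast
  ring

lemma int_NR (h : Ctx T M η) {r : ℕ} (hr : 1 ≤ r) : IsIntegral ℤ ((NR M η r : ℝ) : ℂ) := by
  rw [NR_eq h hr]
  refine IsIntegral.prod _ fun z hz' => ?_
  have hp : IsPrimitiveRoot z r := (mem_primitiveRoots hr).mp hz'
  have hi : IsIntegral ℤ z := hp.isIntegral hr
  have hi' : IsIntegral ℤ z⁻¹ := hp.inv.isIntegral hr
  have h2 : IsIntegral ℤ (2 * (M : ℂ)) := by
    have : (2 * (M : ℂ)) = algebraMap ℤ ℂ (2 * M) := by simp
    rw [this]
    exact isIntegral_algebraMap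
  exact (h2.sub (hi'.mul (int_lam h))).sub (hi.mul (int_lam' h))

lemma rat_NR (h : Ctx T M η) : ∀ r : ℕ, 1 ≤ r → ∃ q : ℚ, NR M η r = q := by
  intro r
  induction r using Nat.strong_induction_on with
  | _ r ih =>
    intro hr
    have hr0 : r ≠ 0 := by omega
    have h1 := prod_NR h hr
    have h2 : r.divisors = insert r r.properDivisors := (Nat.insert_self_properDivisors hr0).symm
    rw [h2, Finset.prod_insert Nat.self_notMem_properDivisors] at h1
    have h3 : ∃ q : ℚ, ∏ d ∈ r.properDivisors, NR M η d = q := by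
      have h4 : ∀ d ∈ r.properDivisors, ∃ q : ℚ, NR M η d = q := by
        intro d hd
        have hd' := Nat.mem_properDivisors.mp hd
        exact ih d hd'.2 (Nat.pos_of_dvd_of_pos hd'.1 hr)
      choose! g hg using h4
      refine ⟨∏ d ∈ r.properDivisors, g d, ?_⟩
      rw [Rat.cast_prod]
      exact Finset.prod_congr rfl hg
    obtain ⟨q, hq⟩ := h3
    have hpos : 0 < ∏ d ∈ r.properDivisors, NR M η d := by
      refine Finset.prod_pos fun d hd => ?_
      have hd' := Nat.mem_properDivisors.mp hd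
      exact NR_pos h (Nat.pos_of_dvd_of_pos hd'.1 hr)
    refine ⟨(W T M r : ℚ) / q, ?_⟩
    push_cast
    rw [← hq, eq_div_iff hpos.ne']
    exact h1

lemma nat_NR (h : Ctx T M η) {r : ℕ} (hr : 1 ≤ r) : ∃ k : ℕ, (k : ℝ) = NR M η r := by
  obtain ⟨q, hq⟩ := rat_NR h r hr
  have h1 := int_NR h hr
  rw [hq] at h1
  have h2 : ((((q : ℝ)) : ℂ)) = algebraMap ℚ ℂ q := by simp
  rw [h2] at h1
  have h3 : IsIntegral ℤ q := (isIntegral_algebraMap_iff (algebraMap ℚ ℂ).injective).mp h1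
  obtain ⟨k, hk⟩ := IsIntegrallyClosed.isIntegral_iff.mp h3
  have h4 : (k : ℝ) = NR M η r := by
    rw [hq, ← hk]
    simp
  have h5 : (0 : ℝ) < k := by rw [h4]; exact NR_pos h hr
  have h6 : 0 < k := by exact_mod_cast h5
  refine ⟨k.toNat, ?_⟩
  rw [← h4]
  have : ((k.toNat : ℤ) : ℝ) = k := by
    rw [Int.toNat_of_nonneg h6.le]
  exact_mod_cast this

theorem thm : G_ND := by
  intro T M η h
  have h1 : ∀ r : ℕ, 1 ≤ r → ∃ k : ℕ, (k : ℝ) = NR M η r := fun r hr => nat_NR h hr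
  choose! N hN using h1
  refine ⟨N, ⟨hN, ?_⟩⟩
  intro r hr
  have h2 := prod_NR h hr
  have h3 : ((∏ d ∈ r.divisors, (N d : ℤ) : ℤ) : ℝ) = ((W T M r : ℤ) : ℝ) := by
    rw [← h2]
    push_cast
    refine Finset.prod_congr rfl fun d hd => ?_
    exact hN d (Nat.pos_of_mem_divisors hd)
  exact_mod_cast h3

end PkND

end Pool.Agent.Helper59.LUC
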